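import Pool.Agent.Lib.MP_8cab0e_gt.Res

set_option autoImplicit false

namespace Pool.Agent.Lib.MP_8cab0e_gt

open Filter Topology Set Cardinal Classical

theorem pospisil : ∃ (I : (ℕ → Bool) → Set ℕ) (u : Ultrafilter ℕ), (∀ x, I x ∈ u) ∧
    ∀ S : Set (ℕ → Bool), S.Infinite → (⋂ x ∈ S, I x) ∉ u := by
  obtain ⟨dec, hdec⟩ := exists_surjective_nat (ℕ × Finset (List Bool))
  let I : (ℕ → Bool) → Set ℕ := fun x => {n | (List.range (dec n).1).map x ∈ (dec n).2}
  let s : (ℕ → Bool) ⊕ {S : Set (ℕ → Bool) // S.Infinite} → Set ℕ :=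
    Sum.elim I fun S => (⋂ x ∈ S.1, I x)ᶜ
  have hne : (⨅ i, 𝓟 (s i)).NeBot := (hasBasis_iInf_principal_finite s).neBot_iff.mpr
    fun {t} ht => by
      have hF : (Sum.inl ⁻¹' t).Finite := ht.preimage Sum.inl_injective.injOn
      have hG : (Sum.inr ⁻¹' t).Finite := ht.preimage Sum.inr_injective.injOn
      choose g hg hg' using fun S : {S : Set (ℕ → Bool) // S.Infinite} =>
        S.2.exists_notMem_finite hF
      obtain ⟨N, hN⟩ : ∃ N, ∀ x ∈ Sum.inl ⁻¹' t, ∀ S ∈ Sum.inr ⁻¹' t,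
          (List.range N).map x ≠ (List.range N).map (g S) := by
        refine Eventually.exists (f := atTop) ((eventually_all_finite hF).mpr fun x hx =>
          (eventually_all_finite hG).mpr fun S _ => ?_)
        obtain ⟨i, hi⟩ := Function.ne_iff.mp (show x ≠ g S from fun e => hg' S (e ▸ hx))
        filter_upwards [eventually_gt_atTop i] with N hN e
        exact hi (List.map_inj_left.mp e i (List.mem_range.mpr hN))
      obtain ⟨n, hn⟩ := hdec (N, hF.toFinset.image fun x => (List.range N).map x)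
      refine ⟨n, mem_iInter₂.mpr ?_⟩
      rintro (x | S) hx
      · change _ ∈ (dec n).2
        rw [hn]
        exact Finset.mem_image_of_mem _ (hF.mem_toFinset.mpr hx)
      · intro c
        have : _ ∈ (dec n).2 := mem_iInter₂.mp c _ (hg S)
        rw [hn] at this
        obtain ⟨x, h1, h2⟩ := Finset.mem_image.mp this
        exact hN x (hF.mem_toFinset.mp h1) S hx h2
  have h : ∀ i, s i ∈ Ultrafilter.of (⨅ i, 𝓟 (s i)) := fun i =>
    Ultrafilter.of_le _ (mem_iInf_of_mem i (mem_principal_self _))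
  exact ⟨I, _, fun x => h (.inl x), fun S hS => Ultrafilter.compl_mem_iff_notMem.mp (h (.inr ⟨S, hS⟩))⟩

theorem no_embed {X : Type} [TopologicalSpace X] [T2Space X]
    (h : ∀ x : X, ∃ B : Set (Set X), #B < 𝔠 ∧ (𝓝 x).HasBasis (· ∈ B) id)
    (e : StoneCech ℕ → X) : ¬ IsEmbedding e := by
  intro he
  obtain ⟨I, u, h1, h2⟩ := pospisil
  let g : Ultrafilter ℕ → StoneCech ℕ := Ultrafilter.extend stoneCechUnit
  have hg : Continuous g := continuous_ultrafilter_extend _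
  have hp : Continuous (pure : ℕ → Ultrafilter ℕ) := continuous_of_discreteTopology
  have hl : stoneCechExtend hp ∘ g = id :=
    denseRange_pure.equalizer ((continuous_stoneCechExtend hp).comp hg) continuous_id (by
      rw [Function.comp_assoc, ultrafilter_extend_extends, stoneCechExtend_extends]; rfl)
  have hF : IsClosedEmbedding (e ∘ g) := (he.continuous.comp hg).isClosedEmbedding
    (he.injective.comp (Function.LeftInverse.injective (congrFun hl)))
  obtain ⟨B, hB, hb⟩ := h (e (g u))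
  have : ∀ x, ∃ b : B, (e ∘ g) ⁻¹' b.1 ⊆ {v | I x ∈ v} := fun x => by
    have := (ultrafilter_isOpen_basic (I x)).mem_nhds (h1 x)
    rw [hF.isInducing.nhds_eq_comap] at this
    obtain ⟨b, hb1, hb2⟩ := (hb.comap _).mem_iff.mp this
    exact ⟨⟨b, hb1⟩, hb2⟩
  choose c hc using this
  obtain ⟨b, hi⟩ := exists_infinite_fiber c (by simpa using hB)
  have h3 : pure ⁻¹' ((e ∘ g) ⁻¹' b.1) ∈ (u : Filter ℕ).sets := by
    have h4 : (e ∘ g) ⁻¹' b.1 ∈ 𝓝 u := hF.continuous.tendsto u (hb.mem_of_mem b.2)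
    have h5 := ultrafilter_converges_iff (u := u.map pure) (x := u) |>.mpr (by
      ext s; rfl)
    exact h5 h4
  refine h2 _ (infinite_coe_iff.mp hi) (mem_of_superset h3 fun n hn => ?_)
  refine mem_iInter₂.mpr fun x hx => ?_
  have e : c x = b := hx
  exact hc x (show pure n ∈ _ by rw [e]; exact hn)

theorem bdd {c : Cardinal.{0}} (hc : ℵ₀ ≤ c) (C : Set (Order.succ c).ord.ToType)
    (hC : C.Countable) : ∃ w, ∀ x ∈ C, x < w := by
  by_contra h
  push Not at h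
  have h1 : (univ : Set (Order.succ c).ord.ToType) ⊆ ⋃ x ∈ C, insert x (Iio x) := fun w _ => by
    obtain ⟨x, hx, hw⟩ := h w
    exact mem_iUnion₂.mpr ⟨x, hx, hw.eq_or_lt⟩
  have h2 := (mk_le_mk_of_subset h1).trans (mk_biUnion_le _ _)
  rw [mk_univ, mk_ord_toType] at h2
  refine (Order.lt_succ c).not_ge (h2.trans (mul_le_of_le hc (hC.le_aleph0.trans hc)
    (ciSup_le' fun x => mk_insert_le.trans (add_le_of_le hc
      (Order.le_of_lt_succ (mk_Iio_toType_ord_lt _)) (one_le_aleph0.trans hc)))))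

theorem cof_nat {K : Type} (n : ℕ) (A : Set K) (hA : #A ≤ ℵ_ n) : ∃ S : Set (Set K), #S ≤ ℵ_ n ∧
    (∀ c ∈ S, c.Countable) ∧ ∀ C ⊆ A, C.Countable → ∃ c ∈ S, C ⊆ c := by
  induction n generalizing A with
  | zero =>
    refine ⟨{A}, by simp, ?_, fun C h _ => ⟨A, rfl, h⟩⟩
    rintro _ rfl
    exact le_aleph0_iff_set_countable.mp (by simpa using hA)
  | succ n ih =>
    rw [Nat.cast_succ, aleph_add_one] at hA ⊢
    obtain ⟨ι⟩ : Nonempty (A ↪ (Order.succ (ℵ_ n)).ord.ToType) := by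
      rw [← Cardinal.le_def, mk_ord_toType]; exact hA
    choose S h1 h2 h3 using fun w => ih (Subtype.val '' (ι ⁻¹' Iio w)) (mk_image_le.trans
      ((mk_preimage_of_injective _ _ ι.injective).trans
        (Order.le_of_lt_succ (mk_Iio_toType_ord_lt w))))
    have h0 : ℵ₀ ≤ Order.succ (ℵ_ n) := (aleph0_le_aleph _).trans (Order.le_succ _)
    refine ⟨⋃ w, S w, (mk_iUnion_le _).trans (mul_le_of_le h0 (mk_ord_toType _).le
      (ciSup_le' fun w => (h1 w).trans (Order.le_succ _))), fun c hc => ?_, fun C h hC => ?_⟩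
    · obtain ⟨w, hw⟩ := mem_iUnion.mp hc
      exact h2 w c hw
    · obtain ⟨w, hw⟩ := bdd (aleph0_le_aleph _) (ι '' (Subtype.val ⁻¹' C))
        ((hC.preimage Subtype.val_injective).image _)
      obtain ⟨c, hc, hc'⟩ := h3 w C (fun x hx => ⟨⟨x, h hx⟩, hw _ ⟨_, hx, rfl⟩, rfl⟩) hC
      exact ⟨c, mem_iUnion.mpr ⟨w, hc⟩, hc'⟩

theorem index {K : Type} [Uncountable K] (S : Set (Set K)) (h1 : #S ≤ #K)
    (h2 : ∀ c ∈ S, c.Countable) (h3 : ∀ C : Set K, C.Countable → ∃ c ∈ S, C ⊆ c) :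
    ∃ (r : K → K → Prop) (a : K → Set K) (ξ : K → K), WellFounded r ∧ (∀ j, ∀ i ∈ a j, r i j) ∧
      (∀ j, ∀ i ∈ a j, a i ⊆ a j) ∧ (∀ j, (a j).Countable) ∧
      ∀ C : Set K, C.Countable → ∃ s, C ⊆ s ∧ ∀ i, ∃ j, ξ j = i ∧ a j = s := by
  have h0 : ℵ₀ < #K := aleph0_lt_mk
  obtain ⟨c0, hc0, -⟩ := h3 ∅ countable_empty
  haveI : Nonempty S := ⟨⟨c0, hc0⟩⟩
  haveI : Nonempty (Order.succ ℵ₀).ord.ToType := by
    rw [← mk_ne_zero_iff, mk_ord_toType]; exact (Order.bot_lt_succ _).ne'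
  obtain ⟨ι⟩ : Nonempty ((Order.succ ℵ₀).ord.ToType × S × K ↪ K) := by
    rw [← Cardinal.le_def, mk_prod, mk_prod]
    simp only [lift_id, mk_ord_toType]
    exact mul_le_of_le h0.le (Order.succ_le_of_lt h0) (mul_le_of_le h0.le h1 le_rfl)
  let σ := Function.invFun ι
  have hσ : Function.Surjective σ := Function.invFun_surjective ι.injective
  let r : K → K → Prop := fun i j => (σ i).1 < (σ j).1
  have wf : WellFounded r := InvImage.wf (fun i => (σ i).1) wellFounded_lt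
  let a : K → Set K := wf.fix fun j ih => ⋃ i ∈ (σ j).2.1.1, ⋃ h : r i j, insert i (ih i h)
  have ha : ∀ j, a j = ⋃ i ∈ (σ j).2.1.1, ⋃ _ : r i j, insert i (a i) := fun j => by
    conv_lhs => unfold a; rw [WellFounded.fix_eq]
  have hm : ∀ j k, k ∈ a j ↔ ∃ i ∈ (σ j).2.1.1, r i j ∧ (k = i ∨ k ∈ a i) := fun j k => by
    rw [ha]; simp only [mem_iUnion, mem_insert_iff, exists_prop]
  refine ⟨r, a, fun j => (σ j).2.2, wf, fun j => ?_, fun j => ?_, fun j => ?_, fun C hC => ?_⟩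
  · induction j using wf.induction with
    | _ j ih =>
      intro k hk
      obtain ⟨i, -, hi, rfl | hk⟩ := (hm j k).mp hk
      exacts [hi, lt_trans (ih i hi k hk) hi]
  · induction j using wf.induction with
    | _ j ih =>
      intro k hk l hl
      obtain ⟨i, hi', hi, rfl | hk⟩ := (hm j k).mp hk
      exacts [(hm j l).mpr ⟨k, hi', hi, Or.inr hl⟩, (hm j l).mpr ⟨i, hi', hi, Or.inr (ih i hi k hk hl)⟩]
  · induction j using wf.induction with
    | _ j ih =>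
      rw [ha]
      exact (h2 _ (σ j).2.1.2).biUnion fun i _ => countable_iUnion fun h => (ih i h).insert i
  · obtain ⟨c, hc, hc'⟩ := h3 C hC
    obtain ⟨w, hw⟩ := bdd le_rfl _ ((h2 c hc).image fun i => (σ i).1)
    refine ⟨⋃ i ∈ c, insert i (a i), fun k hk => mem_biUnion (hc' hk) (mem_insert _ _), fun i => ?_⟩
    obtain ⟨j, hj⟩ := hσ (w, ⟨c, hc⟩, i)
    refine ⟨j, by simp only [hj], ?_⟩
    rw [ha]
    simp only [hj]
    refine iUnion₂_congr fun k hk => ?_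
    have : r k j := by
      change (σ k).1 < (σ j).1
      rw [hj]; exact hw _ ⟨k, hk, rfl⟩
    simp only [this, iUnion_true]

theorem main (K : Type) (Y : K → Type) [∀ i, TopologicalSpace (Y i)] [∀ i, CompactSpace (Y i)]
    [∀ i, T2Space (Y i)] [∀ i, TotallyDisconnectedSpace (Y i)] [∀ i, FirstCountableTopology (Y i)]
    (hY : ¬ SeqCompactSpace (∀ i, Y i))
    (hK : #K < ℵ_ Ordinal.omega0 ∨ ∃ S : Set (Set K), #S ≤ #K ∧ (∀ c ∈ S, c.Countable) ∧
      ∀ C : Set K, C.Countable → ∃ c ∈ S, C ⊆ c) :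
    ∃ (X : Type) (_ : TopologicalSpace X), CompactSpace X ∧ T2Space X ∧ Infinite X ∧
      (¬ ∃ f : ℕ → X, Function.Injective f ∧ ∃ x : X, Tendsto f atTop (𝓝 x)) ∧
      (∀ x : X, ∃ B : Set (Set X), #B ≤ #K ∧ (𝓝 x).HasBasis (· ∈ B) id) ∧
      (#K < 𝔠 → ¬ ∃ e : StoneCech ℕ → X, IsEmbedding e) := by
  haveI : Uncountable K := ⟨fun h => hY inferInstance⟩
  obtain ⟨S, h1, h2, h3⟩ : ∃ S : Set (Set K), #S ≤ #K ∧ (∀ c ∈ S, c.Countable) ∧
      ∀ C : Set K, C.Countable → ∃ c ∈ S, C ⊆ c := by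
    refine hK.elim (fun h => ?_) id
    obtain ⟨o, ho⟩ := mem_range_aleph_iff.mpr (aleph0_le_mk K)
    rw [← ho, aleph_lt_aleph] at h
    obtain ⟨n, rfl⟩ := Ordinal.lt_omega0.mp h
    obtain ⟨S, h1, h2, h3⟩ := cof_nat n (univ : Set K) (by rw [mk_univ, ho])
    exact ⟨S, ho ▸ h1, h2, fun C => h3 C (subset_univ _)⟩
  obtain ⟨r, a, ξ, wf, a1, a2, a3, a4⟩ := index S h1 h2 h3
  obtain ⟨d, hd⟩ : ∃ d : ℕ → ∀ i, Y i,
      ∀ φ : ℕ → ℕ, StrictMono φ → ∀ p, ¬ Tendsto (d ∘ φ) atTop (𝓝 p) := by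
    by_contra c
    push Not at c
    refine hY ⟨fun d _ => ?_⟩
    obtain ⟨φ, h, p, hp⟩ := c d
    exact ⟨p, trivial, φ, h, hp⟩
  have hV : ∀ i (p : Y i), ∃ V : ℕ → Set (Y i), (∀ n, p ∈ V n ∧ IsClopen (V n)) ∧
      ∀ q, q ≠ p → ∃ n, q ∉ V n := fun i p => by
    obtain ⟨V, h, hb⟩ := (nhds_basis_clopen p).exists_antitone_subbasis
    refine ⟨V, h, fun q hq => ?_⟩
    obtain ⟨n, -, hn⟩ := hb.1.mem_iff.mp (isOpen_compl_singleton.mem_nhds hq.symm)
    exact ⟨n, fun c => hn c rfl⟩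
  choose V v1 v2 using hV
  have he : ∀ s : Set K, ∃ e : ℕ → K × ℕ, s.Countable → s ×ˢ (Set.univ : Set ℕ) ⊆ range e := fun s => by
    by_cases h : s.Countable
    · obtain ⟨e, he⟩ := countable_iff_exists_subset_range.mp (h.prod (countable_univ (α := ℕ)))
      exact ⟨e, fun _ => he⟩
    · exact ⟨fun _ => Classical.arbitrary _, fun c => absurd c h⟩
  choose e he using he
  let D : Dat K Y := ⟨K, r, wf, a, ξ, e, V, d, a1, a2, fun j i hi n => he _ (a3 j) ⟨hi, trivial⟩,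
    fun i p n => (v1 i p n).2, fun i p n => (v1 i p n).1, v2⟩
  have hB : ∀ x : D.Pt, ∃ B : Set (Set D.Pt), #B ≤ #K ∧ (𝓝 x).HasBasis (· ∈ B) id := fun x =>
    ⟨_, mk_range_le.trans (by simp [D]), (D.basis x).to_hasBasis
      (fun F _ => ⟨_, mem_range_self F, subset_rfl⟩) fun _ ⟨F, hF⟩ => ⟨F, trivial, hF.le⟩⟩
  refine ⟨D.Pt, inferInstance, inferInstance, inferInstance, ?_,
    fun ⟨f, hf, x, hx⟩ => D.no_seq a4 hd f hf x hx, hB, fun h ⟨f, hf⟩ => no_embed (fun x => ?_) f hf⟩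
  · haveI : Infinite (∀ i, Y i) := not_finite_iff_infinite.mp fun h => hY inferInstance
    refine Infinite.of_injective (fun (y : ∀ i, Y i) => (fun j => y (ξ j) : ∀ j, Y (ξ j)))
      fun y z h => funext fun i => ?_
    obtain ⟨s, -, hs⟩ := a4 ∅ countable_empty
    obtain ⟨j, rfl, -⟩ := hs i
    exact congrFun h j
  · obtain ⟨B, b1, b2⟩ := hB x
    exact ⟨B, b1.trans_lt h, b2⟩

end Pool.Agent.Lib.MP_8cab0e_gt
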