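import Mathlib

set_option autoImplicit false

namespace Pool.Agent.Lib.MP_8cab0e_gt

open Filter Topology Set Classical

/-- Data for the iterated resolution. -/
structure Dat (K : Type) (Y : K → Type) [∀ i, TopologicalSpace (Y i)] where
  J : Type
  r : J → J → Prop
  wf : WellFounded r
  a : J → Set J
  ξ : J → K
  e : Set J → ℕ → J × ℕ
  V : ∀ i, Y i → ℕ → Set (Y i)
  d : ℕ → ∀ i, Y i
  lt : ∀ j, ∀ i ∈ a j, r i j
  cl : ∀ j, ∀ i ∈ a j, a i ⊆ a j
  en : ∀ j, ∀ i ∈ a j, ∀ n, ∃ m, e (a j) m = (i, n)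
  clo : ∀ i p n, IsClopen (V i p n)
  mem : ∀ i p n, p ∈ V i p n
  sep : ∀ i p q, q ≠ p → ∃ n, q ∉ V i p n

variable {K : Type} {Y : K → Type} [∀ i, TopologicalSpace (Y i)] (D : Dat K Y)

namespace Dat

def Pt : Type := ∀ j : D.J, Y (D.ξ j)

noncomputable def G (y z : D.Pt) : ∀ j : D.J, Y (D.ξ j) :=
  D.wf.fix fun j ih =>
    if h : ∃ m, ∃ hm : (D.e (D.a j) m).1 ∈ D.a j,
        ih _ (D.lt j _ hm) ∉ D.V _ (y (D.e (D.a j) m).1) (D.e (D.a j) m).2
    then D.d (@Nat.find _ (fun _ => propDecidable _) h) (D.ξ j) else z j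

def Bad (s : Set D.J) (y z : D.Pt) (m : ℕ) : Prop :=
  ∃ _ : (D.e s m).1 ∈ s, D.G y z (D.e s m).1 ∉ D.V _ (y (D.e s m).1) (D.e s m).2

theorem G_eq (y z : D.Pt) (j : D.J) : D.G y z j =
    if h : ∃ m, D.Bad (D.a j) y z m then D.d (Nat.find h) (D.ξ j) else z j := by
  unfold G
  rw [WellFounded.fix_eq]
  rfl

theorem G_agree (y z : D.Pt) (j : D.J) (h : ∀ i ∈ D.a j, z i = y i) : D.G y z j = z j := by
  induction j using D.wf.induction with
  | _ j ih =>
    rw [G_eq, dif_neg]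
    rintro ⟨m, hm, hb⟩
    rw [ih _ (D.lt j _ hm) fun i hi => h i (D.cl j _ hm hi), h _ hm] at hb
    exact hb (D.mem _ _ _)

theorem G_self (y : D.Pt) (j : D.J) : D.G y y j = y j := D.G_agree y y j fun _ _ => rfl

theorem exists_min {y z : D.Pt} {s : Set D.J} (hs : ∀ i ∈ s, D.a i ⊆ s) (h : ∃ i ∈ s, z i ≠ y i) :
    ∃ i ∈ s, D.G y z i ≠ y i := by
  obtain ⟨i, ⟨hi, hne⟩, hmin⟩ := D.wf.has_min {i | i ∈ s ∧ z i ≠ y i} h
  refine ⟨i, hi, ?_⟩
  rwa [D.G_agree y z i fun k hk => by_contra fun c => hmin k ⟨hs i hi hk, c⟩ (D.lt i k hk)]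

theorem exists_bad {y z : D.Pt} {j : D.J} (h : ∃ i ∈ D.a j, z i ≠ y i) :
    ∃ m, D.Bad (D.a j) y z m := by
  obtain ⟨i, hi, hne⟩ := D.exists_min (D.cl j) h
  obtain ⟨n, hn⟩ := D.sep _ _ _ hne
  obtain ⟨m, hm⟩ := D.en j i hi n
  refine ⟨m, ?_⟩
  unfold Bad
  rw [hm]
  exact ⟨hi, hn⟩

theorem G_congr (y y' z : D.Pt) (j : D.J) (h : ∀ i ∈ D.a j, y i = y' i) :
    D.G y z j = D.G y' z j := by
  induction j using D.wf.induction with
  | _ j ih =>
    have : D.Bad (D.a j) y z = D.Bad (D.a j) y' z := by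
      ext m
      refine exists_congr fun hm => ?_
      rw [ih _ (D.lt j _ hm) fun i hi => h i (D.cl j _ hm hi), h _ hm]
    rw [G_eq, G_eq, this]

theorem find_ev {ι : Type} {l : Filter ι} {P : ι → ℕ → Prop} {Q : ℕ → Prop} (hQ : ∃ m, Q m)
    (h : ∀ m, ∀ᶠ z in l, P z m ↔ Q m) :
    ∀ᶠ z in l, ∃ hP : ∃ m, P z m, Nat.find hP = Nat.find hQ := by
  have : ∀ᶠ z in l, ∀ m ∈ Iic (Nat.find hQ), P z m ↔ Q m :=
    (eventually_all_finite (finite_Iic _)).mpr fun m _ => h m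
  filter_upwards [this] with z hz
  have h1 := (hz _ (mem_Iic.mpr le_rfl)).mpr (Nat.find_spec hQ)
  exact ⟨⟨_, h1⟩, (Nat.find_eq_iff _).mpr
    ⟨h1, fun n hn c => Nat.find_min hQ hn ((hz n hn.le).mp c)⟩⟩

theorem clopen_ev {ι Z : Type} [TopologicalSpace Z] {l : Filter ι} {f : ι → Z} {p : Z}
    (h : Tendsto f l (𝓝 p)) {U : Set Z} (hU : IsClopen U) : ∀ᶠ z in l, f z ∉ U ↔ p ∉ U := by
  by_cases hp : p ∈ U
  · filter_upwards [h (hU.isOpen.mem_nhds hp)] with z hz
    exact iff_of_false (not_not.mpr hz) (not_not.mpr hp)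
  · filter_upwards [h (hU.compl.isOpen.mem_nhds hp)] with z hz
    exact iff_of_true hz hp

theorem exists_lim [∀ i, CompactSpace (Y i)] (u : Ultrafilter D.Pt) :
    ∃ y : D.Pt, ∀ y' j, Tendsto (fun z => D.G y' z j) u (𝓝 (D.G y' y j)) := by
  haveI : ∀ i, Nonempty (Y i) := fun i => ⟨D.d 0 i⟩
  let y : D.Pt := D.wf.fix fun j ih =>
    (u.map fun z => D.G (fun i => if h : D.r i j then ih i h else D.d 0 _) z j).lim
  have hy : ∀ j, Tendsto (fun z => D.G y z j) u (𝓝 (y j)) := fun j => by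
    have e : y j = (u.map fun z =>
        D.G (fun i => if _ : D.r i j then y i else D.d 0 _) z j).lim := by
      conv_lhs => unfold y; rw [WellFounded.fix_eq]
    have e2 : (fun z => D.G (fun i => if _ : D.r i j then y i else D.d 0 _) z j) =
        fun z => D.G y z j := funext fun z => D.G_congr _ _ _ _ fun i hi => dif_pos (D.lt j i hi)
    rw [e, e2]
    exact (u.map fun z => D.G y z j).le_nhds_lim
  refine ⟨y, fun y' j => ?_⟩
  induction j using D.wf.induction with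
  | _ j ih =>
    by_cases h : ∃ i ∈ D.a j, y i ≠ y' i
    · have hb := D.exists_bad h
      have := find_ev (l := u) (P := fun z => D.Bad (D.a j) y' z) hb fun m => by
        by_cases hm : (D.e (D.a j) m).1 ∈ D.a j
        · filter_upwards [clopen_ev (ih _ (D.lt j _ hm)) (D.clo _ (y' _) (D.e (D.a j) m).2)]
            with z hz
          exact exists_congr fun _ => hz
        · exact Eventually.of_forall fun z => iff_of_false (fun c => hm c.1) fun c => hm c.1
      refine tendsto_const_nhds.congr' ?_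
      filter_upwards [this] with z ⟨hz, hz'⟩
      rw [G_eq, G_eq, dif_pos hz, dif_pos hb, hz']
    · push Not at h
      rw [D.G_agree y' y j h]
      exact (hy j).congr fun z => D.G_congr _ _ _ _ h

noncomputable def Φ (z : D.Pt) : ∀ p : D.Pt × D.J, Y (D.ξ p.2) := fun p => D.G p.1 z p.2

noncomputable instance : TopologicalSpace D.Pt := TopologicalSpace.induced D.Φ inferInstance

theorem sepG {y z : D.Pt} (h : z ≠ y) : ∃ i, D.G y z i ≠ y i := by
  obtain ⟨i, hi⟩ := Function.ne_iff.mp h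
  obtain ⟨i, -, hi⟩ := D.exists_min (s := univ) (fun _ _ => subset_univ _) ⟨i, trivial, hi⟩
  exact ⟨i, hi⟩

theorem Φ_inj : Function.Injective D.Φ := fun z y h => by_contra fun c => by
  obtain ⟨i, hi⟩ := D.sepG c
  exact hi ((congrFun h (y, i)).trans (D.G_self y i))

theorem emb : IsEmbedding D.Φ := ⟨⟨rfl⟩, D.Φ_inj⟩

theorem contG (y : D.Pt) (j : D.J) : Continuous fun z => D.G y z j :=
  (continuous_apply (y, j)).comp D.emb.continuous

instance [∀ i, T2Space (Y i)] : T2Space D.Pt := D.emb.t2Space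

instance [∀ i, CompactSpace (Y i)] : CompactSpace D.Pt := ⟨isCompact_iff_ultrafilter_le_nhds.mpr
  fun u _ => by
    obtain ⟨y, hy⟩ := D.exists_lim u
    exact ⟨y, trivial, D.emb.isInducing.tendsto_nhds_iff (f := id) |>.mpr
      (tendsto_pi_nhds.mpr fun p => hy p.1 p.2)⟩⟩

theorem no_seq (hJ : ∀ C : Set D.J, C.Countable → ∃ s, C ⊆ s ∧ ∀ i, ∃ j, D.ξ j = i ∧ D.a j = s)
    [Nonempty K] (hd : ∀ φ : ℕ → ℕ, StrictMono φ → ∀ p, ¬ Tendsto (D.d ∘ φ) atTop (𝓝 p))
    (f : ℕ → D.Pt) (hf : Function.Injective f) (y : D.Pt) : ¬ Tendsto f atTop (𝓝 y) := by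
  intro ht
  have hG : ∀ j, Tendsto (fun n => D.G y (f n) j) atTop (𝓝 (y j)) := fun j => by
    have := ((D.contG y j).tendsto y).comp ht
    rwa [G_self] at this
  have hne : ∀ᶠ n in atTop, f n ≠ y := by
    rw [← Nat.cofinite_eq_atTop]
    exact ((finite_singleton y).preimage hf.injOn).subset fun n hn => not_not.mp hn
  have hc : ∀ n : {n // f n ≠ y}, ∃ i, f n i ≠ y i := fun n => Function.ne_iff.mp n.2
  choose c hc using hc
  obtain ⟨s, hs, hs'⟩ := hJ _ (countable_range c)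
  have hb : ∀ n, f n ≠ y → ∃ m, D.Bad s y (f n) m := fun n hn => by
    obtain ⟨j, -, rfl⟩ := hs' (Classical.arbitrary K)
    exact D.exists_bad ⟨_, hs (mem_range_self ⟨n, hn⟩), hc ⟨n, hn⟩⟩
  let k : ℕ → ℕ := fun n => if h : ∃ m, D.Bad s y (f n) m then Nat.find h else 0
  have hk : Tendsto k atTop atTop := tendsto_atTop.mpr fun b => by
    have : ∀ᶠ n in atTop, ∀ m ∈ Iio b, ¬ D.Bad s y (f n) m :=
      (eventually_all_finite (finite_Iio _)).mpr fun m _ => by
        filter_upwards [hG _ ((D.clo _ (y _) (D.e s m).2).isOpen.mem_nhds (D.mem _ _ _))]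
          with n hn c
        exact c.2 hn
    filter_upwards [this, hne] with n h1 h2
    simp only [k, dif_pos (hb n h2)]
    exact (Nat.le_find_iff _ _).mpr h1
  have hp : ∀ i, ∃ p, Tendsto (fun n => D.d (k n) i) atTop (𝓝 p) := fun i => by
    obtain ⟨j, rfl, rfl⟩ := hs' i
    refine ⟨y j, (hG j).congr' ?_⟩
    filter_upwards [hne] with n hn
    simp only [k]
    rw [G_eq, dif_pos (hb n hn), dif_pos (hb n hn)]
  choose p hp using hp
  obtain ⟨φ, h1, h2⟩ := strictMono_subseq_of_tendsto_atTop hk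
  exact hd _ h2 p (tendsto_pi_nhds.mpr fun i => (hp i).comp h1.tendsto_atTop)

theorem basis [∀ i, CompactSpace (Y i)] (y : D.Pt) : (𝓝 y).HasBasis (fun _ : Finset (D.J × ℕ) => True)
    fun F => ⋂ p ∈ F, {z | D.G y z p.1 ∈ D.V _ (y p.1) p.2} := by
  have hc : ∀ F : Finset (D.J × ℕ), IsClopen (⋂ p ∈ F, {z | D.G y z p.1 ∈ D.V _ (y p.1) p.2}) :=
    fun F => isClopen_biInter_finset fun p _ => (D.clo _ _ _).preimage (D.contG y p.1)
  refine ⟨fun U => ⟨fun hU => ?_, fun ⟨F, _, hF⟩ => mem_of_superset ((hc F).isOpen.mem_nhds ?_) hF⟩⟩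
  · obtain ⟨F, hF⟩ := exists_subset_nhds_of_compactSpace (U := U)
      (V := fun F : Finset (D.J × ℕ) => ⋂ p ∈ F, {z | D.G y z p.1 ∈ D.V _ (y p.1) p.2})
      (fun F F' => ⟨F ∪ F', fun z hz => mem_iInter₂.mpr fun p hp =>
        mem_iInter₂.mp hz p (Finset.mem_union_left _ hp), fun z hz => mem_iInter₂.mpr fun p hp =>
        mem_iInter₂.mp hz p (Finset.mem_union_right _ hp)⟩)
      (fun F => (hc F).isClosed) fun z hz => by
        obtain rfl : z = y := by_contra fun c => by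
          obtain ⟨i, hi⟩ := D.sepG c
          obtain ⟨n, hn⟩ := D.sep _ _ _ hi
          exact hn (by simpa using mem_iInter.mp hz {(i, n)})
        exact hU
    exact ⟨F, trivial, hF⟩
  · simp only [mem_iInter, mem_setOf_eq, G_self]
    exact fun p _ => D.mem _ _ _

end Dat

end Pool.Agent.Lib.MP_8cab0e_gt
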